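import Pool.Agent.Lib.MP_965ec6_al.Proof

namespace Pool.Agent.Results.MP_965ec6_al.LargeFinite

open Pool.Agent.Lib.MP_965ec6_al

/-- For all `p ≥ 4` and all `q` with `p! < 3 ^ (q - 1)` (for instance `p = q = 4`) there is a
`p`-letter `q`-state bireversible Mealy automaton whose group is finite of order at least
`3 ^ (q (q - 1))`, which is greater than `(p!) ^ q`. -/
theorem result : ∀ p q : ℕ, 4 ≤ p → p.factorial < 3 ^ (q - 1) →
    ∃ (M : Mealy (Fin q) (Fin p)) (h : M.Bireversible),
      Finite (M.group h.1) ∧ p.factorial ^ q < 3 ^ (q * (q - 1)) ∧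
        3 ^ (q * (q - 1)) ≤ Nat.card (M.group h.1) :=
  main

end Pool.Agent.Results.MP_965ec6_al.LargeFinite
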